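import Pool.Agent.H75.QG.Targets
import Pool.Agent.H68.AC.Lev

/-!
# General gates: the levels of the circuit
-/

namespace Pool.Agent.H90.QG

open Finset Pool.Agent.H68.AC Pool.Agent.H75.QG

theorem valN_stable {V : Type} {s d M : ℕ} (C : CktG V s d M) (y : V → Bool) :
    ∀ (n m : ℕ) (g : Fin s), C.lev g < n → C.lev g < m → C.valN y n g = C.valN y m g := by
  intro n
  induction n with
  | zero => intro m g h; omega
  | succ n ih =>
    intro m g hn hm
    cases m with
    | zero => omega
    | succ m =>
      rw [CktG.valN, CktG.valN]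
      congr 1
      apply List.map_congr_left
      rintro ⟨b, i | g'⟩ hc
      · rfl
      · have := C.acyc g b g' hc
        simp only [Sum.elim_inr]
        rw [ih m g' (by omega) (by omega)]

theorem valg : T_VALG := by
  intro V s d M C y g
  have h3 := C.lev_lt g
  have h1 : C.val y g = C.valN y (d + 1) g := valN_stable C y _ _ g h3 (by omega)
  rw [h1]
  rfl

theorem TN_stable {V : Type} [DecidableEq V] [Fintype V] {s d M : ℕ} (C : CktG V s d M)
    (P : Finset V) (R : Fin d → PA V) : ∀ (n m : ℕ) (g : Fin s),
    C.lev g < n → C.lev g < m → C.TN P R n g = C.TN P R m g := by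
  intro n
  induction n with
  | zero => intro m g h; omega
  | succ n ih =>
    intro m g hn hm
    cases m with
    | zero => omega
    | succ m =>
      rw [CktG.TN, CktG.TN]
      congr 1
      apply List.map_congr_left
      rintro ⟨b, i | g'⟩ hc
      · rfl
      · have := C.acyc g b g' hc
        simp only [Sum.elim_inr]
        rw [ih m g' (by omega) (by omega)]

theorem teqg : T_TEQG := by
  intro V _ _ s d M C P R g
  have h3 := C.lev_lt g
  have h1 : C.T P R g = C.TN P R (d + 1) g := TN_stable C P R _ _ g h3 (by omega)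
  rw [h1]
  rfl

section

variable {V : Type} [DecidableEq V] [Fintype V] {s d M : ℕ}

/-- If the trees of the gates of lower level are the same then so are the signed source trees. -/
theorem cht_congr (C : CktG V s d M) (P P' : Finset V) (R R' : Fin d → PA V) (g : Fin s)
    (h : ∀ g', C.lev g' < C.lev g → C.T P R g' = C.T P' R' g') : C.cht P R g = C.cht P' R' g := by
  unfold CktG.cht
  apply List.map_congr_left
  rintro ⟨b, i | g'⟩ hc
  · rfl
  · simp only [CktG.stree, Sum.elim_inr]
    rw [h g' (C.acyc g b g' hc)]

theorem T_eq (C : CktG V s d M) (P : Finset V) (R : Fin d → PA V) (g : Fin s) :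
    C.T P R g = canG M (C.op g) (C.df g) (C.cht P R g) (Fintype.card V + 1)
      (rho P R (C.lev g + 1)) := teqg V s d M C P R g

end

theorem invg : T_INVG := by
  intro V _ _ s d M C P R R'
  refine ⟨?_, ?_, ?_⟩
  · intro h
    have h1 := rho_congr P R R' h
    refine ⟨h1, ?_⟩
    have h2 : ∀ n, ∀ g, C.lev g ≤ n → C.T P R g = C.T P R' g := by
      intro n
      induction n with
      | zero =>
        intro g hg
        rw [T_eq, T_eq, h1, cht_congr C P P R R' g (fun g' hg' => by omega)]
      | succ n ih =>
        intro g hg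
        rw [T_eq, T_eq, h1, cht_congr C P P R R' g (fun g' hg' => ih g' (by omega))]
    intro g
    exact cht_congr C P P R R' g (fun g' _ => h2 _ g' le_rfl)
  · intro h
    have h1 := rho_empty P R h
    refine ⟨h1, ?_⟩
    have h2 : ∀ n, ∀ g, C.lev g ≤ n → C.T P R g = C.T ∅ R g := by
      intro n
      induction n with
      | zero =>
        intro g hg
        rw [T_eq, T_eq, h1, cht_congr C P ∅ R R g (fun g' hg' => by omega)]
      | succ n ih =>
        intro g hg
        rw [T_eq, T_eq, h1, cht_congr C P ∅ R R g (fun g' hg' => ih g' (by omega))]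
    intro g
    exact cht_congr C P ∅ R R g (fun g' _ => h2 _ g' le_rfl)
  · have h0 : ∀ j, (∀ i : Fin d, i.1 < j → R i = R' i) → rho P R j = rho P R' j := by
      intro j hj
      funext v
      simp only [rho, mask]
      rw [fd_congr R R' j v (fun i hi => by rw [hj i hi])]
    have h2 : ∀ n, ∀ g, C.lev g ≤ n → (∀ i : Fin d, i.1 < C.lev g + 1 → R i = R' i) →
        C.T P R g = C.T P R' g := by
      intro n
      induction n with
      | zero =>
        intro g hg hi
        rw [T_eq, T_eq, h0 _ hi, cht_congr C P P R R' g (fun g' hg' => by omega)]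
      | succ n ih =>
        intro g hg hi
        rw [T_eq, T_eq, h0 _ hi, cht_congr C P P R R' g (fun g' hg' => ih g' (by omega)
          (fun i h => hi i (by omega)))]
    intro g hi
    exact cht_congr C P P R R' g (fun g' hg' => h2 _ g' le_rfl (fun i h => hi i (by omega)))

theorem corg (hcan : T_CANEG) : T_CORG := by
  intro V _ _ s d M C P R
  have h2 : ∀ n, ∀ g, C.lev g < n → ∀ y, Ext (rho P R (C.lev g + 1)) y →
      (C.T P R g).eval y = C.val y g := by
    intro n
    induction n with
    | zero => intro g hg; omega
    | succ n ih =>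
      intro g hg y hy
      have hl : (C.cht P R g).length = (C.ch g).length := by
        unfold CktG.cht
        rw [List.length_map]
      rw [T_eq, hcan V M (C.op g) (C.df g) _ _ _ y
        (fun l hl' hc => C.op_df g l (hl'.trans hl) hc) (nfree_le _) hy, valg V s d M C y g]
      unfold CktG.cht
      rw [List.map_map]
      congr 1
      apply List.map_congr_left
      rintro ⟨b, i | g'⟩ hc
      · cases i <;> simp [CktG.sval, CktG.stree, Inp.tree, Inp.val, DT.eval]
      · have := C.acyc g b g' hc
        simp only [Function.comp, CktG.stree, CktG.sval, Sum.elim_inr]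
        rw [ih g' (by omega) y (hy.of_sub (rho_mono P R (by omega)))]
  intro g y hy
  exact h2 _ g (Nat.lt_succ_self _) y hy

theorem locwg (hcan : T_CANEG) (hp : T_CANPG) (hb : T_CANBG) (hL : T_LOCG) : T_LOCWG := by
  intro V _ _ s d M C A B R
  have hcor := corg hcan
  have h2 : ∀ n, ∀ g, C.lev g < n → A ⊆ B →
      (∀ ψ c, IsPath (C.T B R g) ψ c → Avoid {v | v ∈ B ∧ v ∉ A} ψ → IsPath (C.T A R g) ψ c) ∧
      (∀ π, IsBPG M (C.cht B R g) (rho B R (C.lev g + 1)) π → Avoid {v | v ∈ B ∧ v ∉ A} π.flatten →
        IsBPG M (C.cht A R g) (rho A R (C.lev g + 1)) π) := by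
    intro n
    induction n with
    | zero => intro g hg; omega
    | succ n ih =>
      intro g hg hAB
      have hE : ExtOn {v | v ∈ B ∧ v ∉ A} (rho A R (C.lev g + 1)) (rho B R (C.lev g + 1)) := by
        constructor
        · intro v hv
          simp only [Set.mem_setOf_eq, not_and, not_not] at hv
          simp only [rho, mask]
          by_cases hB : v ∈ B
          · simp [hB, hv hB]
          · have : v ∉ A := fun h => hB (hAB h)
            simp [hB, this]
        · intro v hv
          simp only [rho, mask, hv.1, if_true]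
      have hS : Sim {v | v ∈ B ∧ v ∉ A} (rho A R (C.lev g + 1)) (C.cht A R g) (C.cht B R g) := by
        unfold Sim CktG.cht
        rw [List.forall₂_map_left_iff, List.forall₂_map_right_iff, List.forall₂_same]
        rintro ⟨b, i | g'⟩ hc
        · exact ⟨rfl, fun _ _ => rfl, fun τ c h _ => h⟩
        · have hlt := C.acyc g b g' hc
          refine ⟨rfl, ?_, ?_⟩
          · intro y hy
            simp only [CktG.stree, Sum.elim_inr]
            rw [hcor V s d M C A R g' y (hy.of_sub (rho_mono A R (by omega))),
              hcor V s d M C B R g' y ((hy.of_sub hE.sub).of_sub (rho_mono B R (by omega)))]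
          · intro τ c h hD
            exact (ih g' (by omega) hAB).1 τ c h hD
      have hbp := fun π => hL V M (C.op g) (C.df g) {v | v ∈ B ∧ v ∉ A} _ _ _ _ π hS hE
      refine ⟨?_, fun π h1 h2 => (hbp π h1 h2).1⟩
      intro ψ c hpth hD
      rw [T_eq] at hpth ⊢
      obtain ⟨π, rfl, h3, h4, rfl⟩ := hp V _ _ _ _ _ _ _ _ (nfree_le _) hpth
      obtain ⟨h5, h6⟩ := hbp π h3 hD
      obtain ⟨h7, h8⟩ := h6 h4
      rw [← h8]
      exact hb V _ _ _ _ _ _ π (nfree_le _) h5 h7
  intro g hAB
  exact h2 _ g (Nat.lt_succ_self _) hAB

end Pool.Agent.H90.QG
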