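import Pool.Agent.H90.QG.LEVG

/-!
# General gates: conversion of circuits
-/

namespace Pool.Agent.H90.QG

open Finset Pool.Agent.H68.AC Pool.Agent.H75.QG

/-- the elements of `L` at the positions where `l` is true -/
def pick {α : Type} (L : List α) (l : List Bool) : Set α := {c | (c, true) ∈ L.zip l}

theorem pick_cons {α : Type} (a : α) (L : List α) (b : Bool) (l : List Bool) :
    pick (a :: L) (b :: l) = {c | c = a ∧ b = true} ∪ pick L l := by
  ext c
  change (c, true) ∈ (a :: L).zip (b :: l) ↔ (c = a ∧ b = true) ∨ (c, true) ∈ L.zip l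
  rw [List.zip_cons_cons, List.mem_cons, Prod.mk.injEq]
  constructor
  · rintro (⟨h1, h2⟩ | h)
    · exact Or.inl ⟨h1, h2.symm⟩
    · exact Or.inr h
  · rintro (⟨h1, h2⟩ | h)
    · exact Or.inl ⟨h1, h2.symm⟩
    · exact Or.inr h

theorem pick_sub {α : Type} {L : List α} {l : List Bool} {c : α} (h : c ∈ pick L l) : c ∈ L :=
  (List.of_mem_zip h).1

theorem pick_card {α : Type} (L : List α) (l : List Bool) (hn : L.Nodup) (h : l.length = L.length) :
    (pick L l).encard = (l.count true : ℕ) := by
  induction L generalizing l with
  | nil =>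
    have : l = [] := List.length_eq_zero_iff.1 h
    subst this
    have e : pick ([] : List α) [] = ∅ := by
      ext c
      change (c, true) ∈ ([] : List (α × Bool)) ↔ _
      simp
    rw [e]
    simp
  | cons a L ih =>
    cases l with
    | nil => simp at h
    | cons b l =>
      have h' : l.length = L.length := by simpa using h
      rw [List.nodup_cons] at hn
      have ih := ih l hn.2 h'
      rw [pick_cons]
      cases b with
      | false =>
        have e : ({c | c = a ∧ false = true} : Set α) = ∅ := by
          ext c; simp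
        rw [e, Set.empty_union, ih]
        simp
      | true =>
        have e : ({c | c = a ∧ true = true} : Set α) = {a} := by
          ext c; simp
        rw [e, Set.singleton_union, Set.encard_insert_of_notMem (fun hc => hn.1 (pick_sub hc)), ih]
        simp

theorem mem_pick_map {α : Type} (L : List α) (f : α → Bool) (c : α) :
    c ∈ pick L (L.map f) ↔ c ∈ L ∧ f c = true := by
  induction L with
  | nil =>
    change (c, true) ∈ ([] : List (α × Bool)) ↔ _
    simp
  | cons a L ih =>
    rw [List.map_cons, pick_cons]
    change (c = a ∧ f a = true) ∨ c ∈ pick L (L.map f) ↔ _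
    rw [ih, List.mem_cons]
    constructor
    · rintro (⟨rfl, h⟩ | ⟨h1, h2⟩)
      · exact ⟨Or.inl rfl, h⟩
      · exact ⟨Or.inr h1, h2⟩
    · rintro ⟨rfl | h1, h2⟩
      · exact Or.inl ⟨rfl, h2⟩
      · exact Or.inr ⟨h1, h2⟩

section

open Classical

variable {I V : Type} [Fintype I] {s d M : ℕ}

/-- the list of literals of a gate -/
noncomputable def L1 (C : GCircuit I s M) (g : Fin s) : List (I × Bool) :=
  (univ.filter (fun c : I × Bool => c ∈ C.lits g)).toList

/-- the list of wires of a gate -/
noncomputable def L2 (C : GCircuit I s M) (g : Fin s) : List (Fin s × Bool) :=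
  (univ.filter (fun c : Fin s × Bool => c ∈ C.wires g)).toList

theorem mem_L1 (C : GCircuit I s M) (g : Fin s) (c : I × Bool) : c ∈ L1 C g ↔ c ∈ C.lits g := by
  unfold L1
  rw [Finset.mem_toList, mem_filter]
  simp

omit [Fintype I] in
theorem mem_L2 (C : GCircuit I s M) (g : Fin s) (c : Fin s × Bool) : c ∈ L2 C g ↔ c ∈ C.wires g := by
  unfold L2
  rw [Finset.mem_toList, mem_filter]
  simp

/-- the converted circuit -/
noncomputable def conv (C : GCircuit I s M) (inc : I → Inp V) (lev : Fin s → ℕ)
    (h1 : ∀ g, lev g < d) (h2 : ∀ g, ∀ c ∈ C.wires g, lev c.1 < lev g) : CktG V s d M where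
  ch g := (L1 C g).map (fun c => (c.2, Sum.inl (inc c.1))) ++ (L2 C g).map (fun c => (c.2, Sum.inr c.1))
  op g l := decide (C.op g (pick (L1 C g) (l.take (L1 C g).length))
    (pick (L2 C g) (l.drop (L1 C g).length)))
  df g := decide (C.dflt g)
  op_df := by
    intro g l hl hc
    rw [List.length_append, List.length_map, List.length_map] at hl
    have e1 : (l.take (L1 C g).length).length = (L1 C g).length := by
      rw [List.length_take]; omega
    have e2 : (l.drop (L1 C g).length).length = (L2 C g).length := by
      rw [List.length_drop]; omega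
    have := C.op_eq g (pick (L1 C g) (l.take (L1 C g).length))
      (fun c hc => (mem_L1 C g c).1 (pick_sub hc)) (pick (L2 C g) (l.drop (L1 C g).length))
      (fun c hc => (mem_L2 C g c).1 (pick_sub hc)) (by
        rw [pick_card (L1 C g) _ (Finset.nodup_toList _) e1,
          pick_card (L2 C g) _ (Finset.nodup_toList _) e2]
        have e3 : l.count true = (l.take (L1 C g).length).count true +
            (l.drop (L1 C g).length).count true := by
          rw [← List.count_append, List.take_append_drop]
        rw [e3] at hc
        exact_mod_cast hc)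
    exact decide_eq_decide.2 this
  lev := lev
  lev_lt := h1
  acyc := by
    intro g b g' h
    rw [List.mem_append] at h
    rcases h with h | h
    · obtain ⟨c, _, hc⟩ := List.mem_map.1 h
      simp only [Prod.mk.injEq, reduceCtorEq, and_false] at hc
    · obtain ⟨c, hc, he⟩ := List.mem_map.1 h
      simp only [Prod.mk.injEq, Sum.inr.injEq] at he
      rw [← he.2]
      exact h2 g c ((mem_L2 C g c).1 hc)
  out := C.out

theorem conv_val (C : GCircuit I s M) (inc : I → Inp V) (lev : Fin s → ℕ)
    (h1 : ∀ g, lev g < d) (h2 : ∀ g, ∀ c ∈ C.wires g, lev c.1 < lev g) (y : V → Bool) (g : Fin s) :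
    (conv C inc lev h1 h2).val y g = true ↔
      C.op g {c | c ∈ C.lits g ∧ (inc c.1).val y = c.2}
        {c | c ∈ C.wires g ∧ (conv C inc lev h1 h2).val y c.1 = c.2} := by
  set C' := conv C inc lev h1 h2 with hC'
  rw [valg V s d M C' y g]
  have e0 : (C'.ch g).map (fun c => C'.sval y c.2 == c.1) =
      (L1 C g).map (fun c => (inc c.1).val y == c.2) ++
        (L2 C g).map (fun c => C'.val y c.1 == c.2) := by
    change List.map _ (List.map _ (L1 C g) ++ List.map _ (L2 C g)) = _
    rw [List.map_append, List.map_map, List.map_map]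
    rfl
  rw [e0]
  change decide (C.op g _ _) = true ↔ _
  rw [decide_eq_true_iff]
  have e1 : ((L1 C g).map (fun c => (inc c.1).val y == c.2) ++
        (L2 C g).map (fun c => C'.val y c.1 == c.2)).take (L1 C g).length =
      (L1 C g).map (fun c => (inc c.1).val y == c.2) := by
    rw [List.take_append_of_le_length (by rw [List.length_map])]
    rw [List.take_of_length_le (by rw [List.length_map])]
  have e2 : ((L1 C g).map (fun c => (inc c.1).val y == c.2) ++
        (L2 C g).map (fun c => C'.val y c.1 == c.2)).drop (L1 C g).length =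
      (L2 C g).map (fun c => C'.val y c.1 == c.2) := by
    have := List.drop_left (l₁ := (L1 C g).map (fun c => (inc c.1).val y == c.2))
      (l₂ := (L2 C g).map (fun c => C'.val y c.1 == c.2))
    rw [List.length_map] at this
    exact this
  rw [e1, e2]
  have e3 : pick (L1 C g) ((L1 C g).map (fun c => (inc c.1).val y == c.2)) =
      {c | c ∈ C.lits g ∧ (inc c.1).val y = c.2} := by
    ext c
    rw [mem_pick_map, mem_L1, beq_iff_eq]
    rfl
  have e4 : pick (L2 C g) ((L2 C g).map (fun c => C'.val y c.1 == c.2)) =
      {c | c ∈ C.wires g ∧ C'.val y c.1 = c.2} := by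
    ext c
    rw [mem_pick_map, mem_L2, beq_iff_eq]
    rfl
  rw [e3, e4]

end

theorem enbg : T_ENBG := by
  intro I V _ s d M C inc hd
  obtain ⟨lev, h1, h2⟩ := hd
  refine ⟨conv C inc lev h1 h2, fun y => ?_⟩
  have key : ∀ n, ∀ g : Fin s, g.1 < n →
      ((conv C inc lev h1 h2).val y g = true ↔ C.Holds (fun i => (inc i).val y) g) := by
    intro n
    induction n with
    | zero => intro g hg; omega
    | succ n ih =>
      intro g hg
      rw [conv_val, GCircuit.Holds]
      have e : {c : Fin s × Bool | c ∈ C.wires g ∧ (conv C inc lev h1 h2).val y c.1 = c.2} =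
          {c | ∃ _h : c ∈ C.wires g, (C.Holds (fun i => (inc i).val y) c.1 ↔ c.2 = true)} := by
        ext c
        change (c ∈ C.wires g ∧ (conv C inc lev h1 h2).val y c.1 = c.2) ↔
          (∃ _h : c ∈ C.wires g, (C.Holds (fun i => (inc i).val y) c.1 ↔ c.2 = true))
        constructor
        · rintro ⟨hc, h⟩
          refine ⟨hc, ?_⟩
          have := C.topo g c hc
          rw [← ih c.1 (by have := Fin.lt_def.1 this; omega), h]
        · rintro ⟨hc, h⟩
          refine ⟨hc, ?_⟩
          have := C.topo g c hc
          rw [← ih c.1 (by have := Fin.lt_def.1 this; omega)] at h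
          exact Bool.eq_iff_iff.2 h
      rw [e]
  exact key s C.out C.out.2

end Pool.Agent.H90.QG
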